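import Mathlib

open Finset Filter Topology MeasureTheory

namespace Pool.Agent.H.MP_f44585_an

noncomputable def ee (t : ℝ) : ℂ := Complex.exp (Complex.I * (2 * Real.pi * t : ℝ))

lemma ee_add (a b : ℝ) : ee (a + b) = ee a * ee b := by
  simp [ee, ← Complex.exp_add, mul_add]

lemma ee_norm (a : ℝ) : ‖ee a‖ = 1 := Complex.norm_exp_I_mul_ofReal _

lemma ee_zero : ee 0 = 1 := by simp [ee]

lemma ee_conj (a : ℝ) : starRingEnd ℂ (ee a) = ee (-a) := by
  simp [ee, ← Complex.exp_conj, map_ofNat]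

lemma ee_sub (a b : ℝ) : ‖ee a - ee b‖ ≤ 7 * |a - b| := by
  have : ee a - ee b = ee b * (ee (a - b) - 1) := by rw [mul_sub, ← ee_add]; simp
  rw [this, norm_mul, ee_norm, one_mul]
  refine Real.norm_exp_I_mul_ofReal_sub_one_le.trans ?_
  rw [Real.norm_eq_abs, abs_mul, abs_of_pos Real.two_pi_pos]
  gcongr
  linarith [Real.pi_lt_d2]

lemma ee_nat (n : ℕ) (a : ℝ) : ee (n * a) = ee a ^ n := by
  induction n with
  | zero => simp [ee_zero]
  | succ n ih => rw [pow_succ, ← ih, ← ee_add]; push_cast; ring_nf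

lemma ee_one {a : ℝ} (h : ee a = 1) : ∃ n : ℤ, a = n := by
  obtain ⟨n, hn⟩ := Complex.exp_eq_one_iff.1 h
  refine ⟨n, ?_⟩
  have := congrArg Complex.im hn
  simp at this
  nlinarith [Real.pi_pos]

lemma ee_sum {ι : Type} (s : Finset ι) (f : ι → ℝ) : ee (∑ i ∈ s, f i) = ∏ i ∈ s, ee (f i) := by
  classical
  induction s using Finset.induction_on with
  | empty => simp [ee_zero]
  | insert a s ha ih => rw [sum_insert ha, prod_insert ha, ee_add, ih]

open Classical in
theorem weyl {u : ℕ → ℝ}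
    (h : ∀ k : ℕ, 1 ≤ k → Tendsto (fun N : ℕ => (∑ n ∈ range N, ee (k * u n)) / N) atTop (𝓝 0))
    {a b : ℝ} (ha : 0 ≤ a) (hab : a < b) (hb : b ≤ 1) :
    Tendsto (fun N : ℕ => (((range N).filter fun n => Int.fract (u n) ∈ Set.Ico a b).card : ℝ) / N)
      atTop (𝓝 (b - a)) := by
  have hf (k : ℤ) (t : ℝ) : fourier k (t : AddCircle (1 : ℝ)) = ee (k * t) := by
    rw [fourier_coe_apply, ee]; congr 1; push_cast; ring
  have main (f : C(AddCircle (1 : ℝ), ℂ)) : Tendsto
      (fun N : ℕ => (∑ n ∈ range N, f (u n)) / N) atTop (𝓝 (∫ x, f x)) := by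
    have mem : f ∈ closure (Submodule.span ℂ (Set.range (fourier (T := 1))) : Set _) := by
      rw [← Submodule.topologicalClosure_coe, span_fourier_closure_eq_top]; trivial
    have int (f : C(AddCircle (1 : ℝ), ℂ)) : Integrable f :=
      f.continuous.integrable_of_hasCompactSupport (HasCompactSupport.of_compactSpace f)
    have base : ∀ g ∈ Submodule.span ℂ (Set.range (fourier (T := 1))), Tendsto
        (fun N : ℕ => (∑ n ∈ range N, g (u n)) / N) atTop (𝓝 (∫ x, g x)) := by
      intro g hg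
      induction hg using Submodule.span_induction with
      | mem g hg =>
        obtain ⟨k, rfl⟩ := hg
        have e := congrFun (fourierCoeff_fourier (T := 1) k) 0
        rw [fourierCoeff, AddCircle.integral_haarAddCircle] at e
        simp only [neg_zero, fourier_zero, one_smul, inv_one] at e
        rw [e]
        rcases lt_trichotomy k 0 with hk | rfl | hk
        · obtain ⟨l, rfl⟩ := Int.exists_eq_neg_ofNat hk.le
          have := (Complex.continuous_conj.tendsto _).comp (h l (by omega))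
          simpa [Function.comp_def, hf, ee_conj, hk.ne'] using this
        · simp only [fourier_zero, sum_const, card_range, nsmul_eq_mul, mul_one, Pi.single_eq_same]
          refine tendsto_const_nhds.congr' ((eventually_ne_atTop 0).mono fun N hN => ?_)
          exact (div_self (by exact_mod_cast hN)).symm
        · obtain ⟨l, rfl⟩ := Int.eq_ofNat_of_zero_le hk.le
          simpa [hf, hk.ne] using h l (by omega)
      | zero => simp
      | add f g _ _ h1 h2 =>
        simpa [sum_add_distrib, add_div, integral_add (int f) (int g)] using h1.add h2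
      | smul c f _ h1 =>
        simpa [← mul_sum, mul_div_assoc, integral_const_mul] using h1.const_mul c
    rw [Metric.tendsto_atTop]
    intro ε hε
    obtain ⟨g, hg, hd⟩ := Metric.mem_closure_iff.1 mem (ε / 3) (by positivity)
    obtain ⟨N, hN⟩ := Metric.tendsto_atTop.1 (base g hg) (ε / 3) (by positivity)
    refine ⟨N, fun n hn => ?_⟩
    have b1 : dist ((∑ i ∈ range n, f (u i)) / n) ((∑ i ∈ range n, g (u i)) / n) ≤ dist f g := by
      rw [dist_eq_norm, ← sub_div, ← sum_sub_distrib, norm_div, Complex.norm_natCast]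
      refine div_le_of_le_mul₀ (by positivity) dist_nonneg ((norm_sum_le_of_le _
        (n := fun _ => dist f g) fun i _ => ?_).trans (by simp [mul_comm]))
      rw [← dist_eq_norm]; exact ContinuousMap.dist_apply_le_dist _
    have b2 : dist (∫ x, g x) (∫ x, f x) ≤ dist f g := by
      rw [dist_comm, dist_eq_norm, ← integral_sub (int f) (int g)]
      refine (norm_integral_le_of_norm_le_const (C := dist f g) (ae_of_all _ fun x => ?_)).trans
        (by simp [Measure.real])
      rw [← dist_eq_norm]; exact ContinuousMap.dist_apply_le_dist _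
    linarith [dist_triangle4 ((∑ i ∈ range n, f (u i)) / n) ((∑ i ∈ range n, g (u i)) / n)
      (∫ x, g x) (∫ x, f x), hN n hn]
  let μ : ℕ → ProbabilityMeasure (AddCircle (1 : ℝ)) := fun N =>
    ⟨((N + 1 : ℕ) : ENNReal)⁻¹ • ∑ n ∈ range (N + 1), Measure.dirac (u n : AddCircle (1 : ℝ)),
      ⟨by simp [ENNReal.inv_mul_cancel]⟩⟩
  let ν : ProbabilityMeasure (AddCircle (1 : ℝ)) := ⟨volume, ⟨by simp⟩⟩
  have lim : Tendsto μ atTop (𝓝 ν) := by
    refine (ProbabilityMeasure.tendsto_iff_forall_integral_rclike_tendsto ℂ).2 fun f => ?_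
    refine ((tendsto_add_atTop_iff_nat 1).2 (main f.toContinuousMap)).congr fun N => ?_
    simp only [μ, ProbabilityMeasure.coe_mk, integral_smul_measure]
    rw [integral_finsetSum_measure fun _ _ => f.integrable _]
    simp [div_eq_inv_mul, ENNReal.toReal_add]
  let E : Set (AddCircle (1 : ℝ)) := (↑) '' Set.Ico a b
  have h1 : Metric.ball (((a + b) / 2 : ℝ) : AddCircle (1 : ℝ)) ((b - a) / 2) ⊆ E := fun x hx => by
    obtain ⟨t, e, ht⟩ := QuotientAddGroup.norm_lt_iff.1 (mem_ball_iff_norm.1 hx)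
    rw [Real.norm_eq_abs, abs_lt] at ht
    exact ⟨t + (a + b) / 2, ⟨by linarith, by linarith⟩, by rw [QuotientAddGroup.mk_add, e]; simp⟩
  have h2 : E ⊆ Metric.closedBall (((a + b) / 2 : ℝ) : AddCircle (1 : ℝ)) ((b - a) / 2) := by
    rintro _ ⟨t, ht, rfl⟩
    rw [mem_closedBall_iff_norm, ← QuotientAddGroup.mk_sub]
    refine QuotientAddGroup.norm_mk_le_norm.trans (abs_le.2 ⟨?_, ?_⟩) <;> linarith [ht.1, ht.2]
  have ae := AddCircle.closedBall_ae_eq_ball (x := (((a + b) / 2 : ℝ) : AddCircle (1 : ℝ)))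
    (ε := (b - a) / 2)
  have key := ProbabilityMeasure.tendsto_measure_of_null_frontier_of_tendsto' lim (E := E)
    (measure_mono_null (Set.sdiff_subset_sdiff (closure_minimal h2 Metric.isClosed_closedBall)
      (interior_maximal h1 Metric.isOpen_ball)) (ae_eq_set.1 ae).1)
  have vol : (ν : Measure _) E = ENNReal.ofReal (b - a) := by
    have := AddCircle.volume_closedBall (T := 1) (x := (((a + b) / 2 : ℝ) : AddCircle (1 : ℝ)))
      ((b - a) / 2)
    rw [min_eq_right (by linarith), mul_div_cancel₀ _ two_ne_zero] at this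
    exact le_antisymm ((measure_mono h2).trans this.le)
      ((this.symm.trans (measure_congr ae)).le.trans (measure_mono h1))
  rw [vol] at key
  have k2 := (ENNReal.tendsto_toReal ENNReal.ofReal_ne_top).comp key
  rw [ENNReal.toReal_ofReal (by linarith)] at k2
  refine (tendsto_add_atTop_iff_nat 1).1 (k2.congr fun N => ?_)
  have mem (t : ℝ) : (t : AddCircle (1 : ℝ)) ∈ E ↔ Int.fract t ∈ Set.Ico a b := by
    refine ⟨?_, fun h => ⟨_, h, AddCircle.coe_fract t⟩⟩
    rintro ⟨s, hs, e⟩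
    rw [← AddCircle.coe_fract t, AddCircle.coe_eq_coe_iff_of_mem_Ico (a := 0)
      ⟨ha.trans hs.1, by linarith [hs.2]⟩ ⟨Int.fract_nonneg _, by simpa using Int.fract_lt_one _⟩] at e
    exact e ▸ hs
  simp [μ, Set.indicator_apply, mem, div_eq_inv_mul, ENNReal.toReal_add]

lemma word {r : ℕ} (hr : 2 ≤ r) (w : ℕ → ℤ) (hw : ∀ j, 0 ≤ w j ∧ w j < r) (k : ℕ) :
    ∃ m : ℤ, 0 ≤ m ∧ m < r ^ k ∧ ∀ x : ℝ,
      (∀ j < k, ⌊x * r ^ (j + 1)⌋ % r = w j) ↔ ⌊x * r ^ k⌋ % r ^ k = m := by
  induction k with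
  | zero => exact ⟨0, le_rfl, by simp, by simp⟩
  | succ k ih =>
    obtain ⟨m, h0, h1, h⟩ := ih
    have r0 : (0 : ℤ) < r := by omega
    refine ⟨r * m + w k, by nlinarith [hw k], by rw [pow_succ]; nlinarith [hw k], fun x => ?_⟩
    have e : ⌊x * r ^ k⌋ = ⌊x * r ^ (k + 1)⌋ / r := by
      rw [← Int.floor_div_natCast]; congr 1; field_simp; ring
    rw [Nat.forall_lt_succ_right, h, e]
    generalize ⌊x * r ^ (k + 1)⌋ = T
    have p0 : (0 : ℤ) < r ^ k := by positivity
    have a1 := Int.emod_nonneg T r0.ne'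
    have a2 := Int.emod_lt_of_pos T r0
    have a3 := Int.emod_nonneg (T / r) p0.ne'
    have a4 := Int.emod_lt_of_pos (T / r) p0
    have a5 : T % r ^ (k + 1) = r * (T / r % r ^ k) + T % r := by
      refine ((Int.ediv_emod_unique (q := T / r / r ^ k) (by positivity)).2 ⟨?_, by positivity,
        by rw [pow_succ]; nlinarith⟩).2
      linear_combination r * Int.emod_add_mul_ediv (T / r) (r ^ k) + Int.emod_add_mul_ediv T r
    rw [a5]
    refine ⟨fun h => by rw [h.1, h.2], fun h => ?_⟩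
    have : T / r % r ^ k = m := by nlinarith [hw k]
    exact ⟨this, by rw [this] at h; linarith⟩

theorem normal {r : ℕ} (hr : 2 ≤ r) {z : ℝ}
    (h : ∀ k : ℕ, 1 ≤ k → Tendsto (fun N : ℕ => (∑ n ∈ range N, ee (k * (r ^ n * z))) / N)
      atTop (𝓝 0)) (k : ℕ) (w : Fin k → Fin r) :
    Tendsto (fun N : ℕ => ((((range N).filter (fun i => ∀ j : Fin k,
      ⌊z * (r : ℝ) ^ (i + (j : ℕ) + 1)⌋ % (r : ℤ) = ((w j : ℕ) : ℤ))).card : ℝ) / (N : ℝ)))
      atTop (𝓝 (1 / (r : ℝ) ^ k)) := by
  obtain ⟨m, h0, h1, hm⟩ := word hr (fun j => if h : j < k then (w ⟨j, h⟩ : ℕ) else 0)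
    (fun j => by split_ifs <;> [simp; (simp; omega)]) k
  have p0 : (0 : ℝ) < r ^ k := by positivity
  have := weyl h (a := m / r ^ k) (b := (m + 1) / r ^ k) (by positivity) (by gcongr; linarith)
    ((div_le_one p0).2 (by exact_mod_cast h1))
  rw [← sub_div, add_sub_cancel_left] at this
  refine this.congr fun N => congrArg (fun s : Finset ℕ => (s.card : ℝ) / N) ?_
  ext i
  simp only [mem_filter]
  refine and_congr_right fun _ => ?_
  have e : ⌊r ^ i * z * r ^ k⌋ % r ^ k = ⌊Int.fract (r ^ i * z) * r ^ k⌋ := by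
    have : r ^ i * z * r ^ k = Int.fract (r ^ i * z) * r ^ k + ((r ^ k * ⌊r ^ i * z⌋ : ℤ) : ℝ) := by
      rw [Int.fract]; push_cast; ring
    rw [this, Int.floor_add_intCast, Int.add_mul_emod_self_left]
    refine Int.emod_eq_of_lt (Int.floor_nonneg.2 (mul_nonneg (Int.fract_nonneg _) p0.le))
      (Int.floor_lt.2 ?_)
    push_cast
    nlinarith [Int.fract_lt_one (r ^ i * z)]
  rw [Set.mem_Ico, div_le_iff₀ p0, lt_div_iff₀ p0, ← Int.floor_eq_iff, ← e, ← hm]
  have e2 (j : ℕ) : r ^ i * z * r ^ (j + 1) = z * r ^ (i + j + 1) := by ring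
  simp only [e2]
  exact ⟨fun h j => by simpa using h j j.2, fun h j hj => by simpa [hj] using h ⟨j, hj⟩⟩

end Pool.Agent.H.MP_f44585_an
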