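import Pool.Agent.H.MP_f44585_an.A

open Finset Filter Topology

namespace Pool.Agent.H.MP_f44585_an

noncomputable def val (r : ℕ) (d : ℕ → Bool) : ℝ := ∑' n, ((d n).toNat : ℝ) / r ^ (n + 1)

variable {r : ℕ}

lemma term_le (hr : 2 ≤ r) (d : ℕ → Bool) (M n : ℕ) :
    ‖((d (n + M)).toNat : ℝ) / r ^ (n + M + 1)‖ ≤ 1 / r ^ M / 2 / 2 ^ n := by
  have h : (2 : ℝ) ≤ r := by exact_mod_cast hr
  rw [Real.norm_of_nonneg (by positivity), div_div, div_div,
    show (r : ℝ) ^ (n + M + 1) = r ^ M * (r * r ^ n) by ring]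
  gcongr
  exact_mod_cast Bool.toNat_le _

lemma summ (hr : 2 ≤ r) (d : ℕ → Bool) : Summable fun n => ((d n).toNat : ℝ) / r ^ (n + 1) :=
  .of_norm_bounded (hasSum_geometric_two' _).summable (term_le hr d 0)

lemma split (hr : 2 ≤ r) (d : ℕ → Bool) (M : ℕ) : ∃ t, 0 ≤ t ∧ t ≤ 1 / (r : ℝ) ^ M ∧
    val r d = ∑ n ∈ range M, ((d n).toNat : ℝ) / r ^ (n + 1) + t :=
  ⟨_, tsum_nonneg fun n => by positivity, (le_abs_self _).trans
    (tsum_of_norm_bounded (hasSum_geometric_two' _) (term_le hr d M)),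
    ((summ hr d).sum_add_tsum_nat_add M).symm⟩

lemma val_close (hr : 2 ≤ r) {d e : ℕ → Bool} {M : ℕ} (h : ∀ n < M, e n = d n) :
    |val r e - val r d| ≤ 1 / (r : ℝ) ^ M := by
  obtain ⟨t, h1, h2, h3⟩ := split hr d M
  obtain ⟨s, k1, k2, k3⟩ := split hr e M
  rw [h3, k3, sum_congr rfl fun n hn => by rw [h n (mem_range.1 hn)], abs_le]
  constructor <;> linarith

lemma val_diff (hr : 2 ≤ r) {d e : ℕ → Bool} {W : Finset ℕ} (h : ∀ n ∉ W, e n = d n) :
    val r e - val r d = ∑ n ∈ W, (((e n).toNat : ℝ) - (d n).toNat) / r ^ (n + 1) := by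
  rw [val, val, ← (summ hr e).tsum_sub (summ hr d), tsum_eq_sum (s := W) fun n hn => by
    rw [h n hn, sub_self]]
  simp only [sub_div]

lemma digit_zero (hr : 2 ≤ r) (c : ℤ) {d : ℕ → Bool} {n : ℕ} (h1 : d n = false)
    (h2 : d (n + 1) = false) : ⌊(c + val r d) * r ^ (n + 1)⌋ % r = 0 := by
  have h : (2 : ℝ) ≤ r := by exact_mod_cast hr
  obtain ⟨t, t0, t1, e⟩ := split hr d (n + 2)
  have (n : ℕ) : ∃ z : ℤ, (∑ s ∈ range n, ((d s).toNat : ℝ) / r ^ (s + 1)) * r ^ n = z := by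
    induction n with
    | zero => exact ⟨0, by simp⟩
    | succ n ih =>
      obtain ⟨z, hz⟩ := ih
      refine ⟨z * r + (d n).toNat, ?_⟩
      rw [sum_range_succ, add_mul, div_mul_cancel₀ _ (by positivity), pow_succ, ← mul_assoc, hz]
      simp
  obtain ⟨z, hz⟩ := this n
  have : ⌊(c + val r d) * r ^ (n + 1)⌋ = r * (c * r ^ n + z) := by
    rw [Int.floor_eq_iff, e, sum_range_succ, sum_range_succ, h1, h2]
    push_cast
    rw [← hz]
    rw [le_div_iff₀ (by positivity)] at t1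
    have : 0 ≤ t * r ^ (n + 1) := by positivity
    have : t * r ^ (n + 1) < 1 := by rw [pow_succ] at t1; nlinarith
    simp only [Bool.toNat_false, Nat.cast_zero, zero_div, add_zero]
    rw [pow_succ] at *
    constructor <;> nlinarith
  rw [this, Int.mul_emod_right]

lemma avoid (hr : 2 ≤ r) (d : ℕ → Bool) (M : ℕ) (b : ℝ) : ∃ d' : ℕ → Bool,
    (∀ n < M, d' n = d n) ∧ d' (M + 1) = false ∧
      ∀ e, (∀ n < M + 2, e n = d' n) → val r e ≠ b := by
  have h : (2 : ℝ) ≤ r := by exact_mod_cast hr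
  by_contra! k
  obtain ⟨e, h1, h2⟩ := k (fun n => if n < M then d n else false) (fun n hn => if_pos hn) (by simp)
  obtain ⟨e', k1, k2⟩ := k (fun n => if n < M then d n else n = M) (fun n hn => if_pos hn) (by simp)
  obtain ⟨t, -, t1, ht⟩ := split hr e (M + 2)
  obtain ⟨s, s0, -, hs⟩ := split hr e' (M + 2)
  rw [sum_range_succ, sum_range_succ] at ht hs
  rw [h1 M (by omega), h1 (M + 1) (by omega), sum_congr rfl fun n hn => by
    rw [h1 n (by have := mem_range.1 hn; omega), if_pos (mem_range.1 hn)]] at ht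
  rw [k1 M (by omega), k1 (M + 1) (by omega), sum_congr rfl fun n hn => by
    rw [k1 n (by have := mem_range.1 hn; omega), if_pos (mem_range.1 hn)]] at hs
  simp at ht hs
  have : 1 / (r : ℝ) ^ (M + 2) < ((r : ℝ) ^ (M + 1))⁻¹ := by
    rw [← one_div]
    exact one_div_lt_one_div_of_lt (by positivity) (pow_lt_pow_right₀ (by linarith) (by omega))
  linarith

lemma decay (hr : 2 ≤ r) {q : ℝ} (hq : 2 ≤ q) {α : ℝ} (hα : ∀ j, ee (r ^ j * α) ≠ 1) :
    Tendsto (fun D => ∏ j ∈ range D, ‖(q - 1 : ℝ) + ee (r ^ j * α)‖ / q) atTop (𝓝 0) := by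
  have nt : ¬ Tendsto (fun j : ℕ => ee (r ^ j * α)) atTop (𝓝 1) := fun h => by
    have c : Continuous fun z : ℂ => ‖∑ i ∈ range r, z ^ i‖ := by fun_prop
    obtain ⟨J, hJ⟩ := eventually_atTop.1 (((c.tendsto 1).comp h).eventually
      (lt_mem_nhds (a := 1) (by simp; omega)))
    have (j) (hj : J ≤ j) : ‖ee (r ^ J * α) - 1‖ ≤ ‖ee (r ^ j * α) - 1‖ := by
      induction j, hj using Nat.le_induction with
      | base => rfl
      | succ j hj ih =>
        rw [pow_succ', mul_assoc, ee_nat, ← geom_sum_mul, norm_mul]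
        exact ih.trans (le_mul_of_one_le_left (norm_nonneg _) (hJ j hj).le)
    exact (norm_pos_iff.2 (sub_ne_zero.2 (hα J))).not_ge (ge_of_tendsto
      (tendsto_iff_norm_sub_tendsto_zero.1 h) (eventually_atTop.2 ⟨J, this⟩))
  rw [Metric.tendsto_nhds] at nt
  push Not at nt
  obtain ⟨ε, hε, hf⟩ := nt
  have sq (j : ℕ) : (‖(q - 1 : ℝ) + ee (r ^ j * α)‖ / q) ^ 2 =
      1 - (q - 1) * ‖ee (r ^ j * α) - 1‖ ^ 2 / q ^ 2 := by
    have := ee_norm (r ^ j * α)
    generalize ee (r ^ j * α) = z at *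
    have e : z.re ^ 2 + z.im ^ 2 = 1 := by rw [← one_pow 2, ← this, Complex.sq_norm, Complex.normSq_apply]; ring
    rw [div_pow, Complex.sq_norm, Complex.sq_norm, Complex.normSq_apply, Complex.normSq_apply]
    field_simp
    simp
    linear_combination q * e
  have q1 : 0 < q - 1 := by linarith
  have anti : Antitone fun D => ∏ j ∈ range D, ‖(q - 1 : ℝ) + ee (r ^ j * α)‖ / q :=
    antitone_nat_of_succ_le fun D => by
      rw [prod_range_succ]
      refine mul_le_of_le_one_right (by positivity) (pow_le_one_iff_of_nonneg (by positivity)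
        two_ne_zero |>.1 ((sq D).le.trans (sub_le_self _ (by positivity))))
  have lim := tendsto_atTop_ciInf anti ⟨0, by rintro _ ⟨D, rfl⟩; positivity⟩
  have l0 := ge_of_tendsto' lim fun D => (show 0 ≤ _ by positivity)
  generalize (⨅ D, ∏ j ∈ range D, ‖(q - 1 : ℝ) + ee (r ^ j * α)‖ / q) = l at *
  have ρ1 : √(1 - (q - 1) * ε ^ 2 / q ^ 2) < 1 := (Real.sqrt_lt' one_pos).2 (by
    have : 0 < (q - 1) * ε ^ 2 / q ^ 2 := by positivity
    linarith)
  have := le_of_tendsto_of_tendsto_of_frequently ((tendsto_add_atTop_iff_nat 1).2 lim)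
    (lim.mul_const √(1 - (q - 1) * ε ^ 2 / q ^ 2)) (hf.mono fun D hD => by
      rw [prod_range_succ]
      refine mul_le_mul_of_nonneg_left (Real.le_sqrt_of_sq_le ((sq D).le.trans ?_)) (by positivity)
      rw [dist_eq_norm] at hD
      gcongr)
  rwa [show l = 0 by nlinarith] at lim

lemma moment {Ω : Type} [Fintype Ω] (I : Finset ℕ) (a : ℕ → Ω → ℂ) (ha : ∀ n ω, ‖a n ω‖ = 1)
    {T : ℕ} {η : ℝ} (hη : 0 ≤ η) (far : ∀ n ∈ I, ∀ m ∈ I, m + T ≤ n →
      ‖∑ ω, a n ω * starRingEnd ℂ (a m ω)‖ ≤ η * Fintype.card Ω) :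
    ∑ ω, ‖∑ n ∈ I, a n ω‖ ^ 2 ≤ Fintype.card Ω * (I.card * (2 * T) + I.card ^ 2 * η) := by
  have e : ((∑ ω, ‖∑ n ∈ I, a n ω‖ ^ 2 : ℝ) : ℂ) =
      ∑ n ∈ I, ∑ m ∈ I, ∑ ω, a n ω * starRingEnd ℂ (a m ω) := by
    push_cast
    simp only [← Complex.mul_conj', map_sum, sum_mul_sum]
    exact sum_comm.trans (sum_congr rfl fun _ _ => sum_comm)
  have e2 := congrArg norm e
  rw [Complex.norm_real, Real.norm_of_nonneg (by positivity)] at e2
  rw [e2]
  refine (norm_sum_le_of_le _ (n := fun _ => Fintype.card Ω * (2 * T + I.card * η))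
    fun n hn => ?_).trans (le_of_eq (by simp; ring))
  refine (norm_sum_le_of_le _ (n := fun m => (if m ∈ Ico (n - T) (n + T) then
    (Fintype.card Ω : ℝ) else 0) + η * Fintype.card Ω) fun m hm => ?_).trans ?_
  · split_ifs with h
    · refine (norm_sum_le_of_le _ (n := fun _ => 1) fun ω _ => by simp [ha]).trans ?_
      simp
      positivity
    · rw [zero_add]
      rw [mem_Ico] at h
      rcases (show m + T ≤ n ∨ n + T ≤ m by omega) with k | k
      · exact far n hn m hm k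
      · rw [← RCLike.norm_conj]
        simpa [mul_comm] using far m hm n hn k
  · rw [sum_add_distrib, sum_ite_mem, sum_const, sum_const, nsmul_eq_mul, nsmul_eq_mul]
    have : ((I ∩ Ico (n - T) (n + T)).card : ℝ) ≤ 2 * T := by
      have := card_le_card (inter_subset_right (s₁ := I) (s₂ := Ico (n - T) (n + T)))
      rw [Nat.card_Ico] at this
      exact_mod_cast (by omega : _ ≤ 2 * T)
    nlinarith [show (0 : ℝ) ≤ Fintype.card Ω by positivity]

lemma average {u : ℕ → ℂ} (hu : ∀ n, ‖u n‖ ≤ 1) {M : ℕ → ℕ} (hM : StrictMono M)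
    (h : ∀ ε : ℝ, 0 < ε → ∀ᶠ i in atTop, ‖∑ n ∈ Ico (M i) (M (i + 1)), u n‖ ≤
      ε * (M (i + 1) - M i) ∧ (M (i + 1) - M i : ℝ) ≤ ε * M i) :
    Tendsto (fun N : ℕ => (∑ n ∈ range N, u n) / N) atTop (𝓝 0) := by
  rw [NormedAddGroup.tendsto_nhds_zero]
  intro ε hε
  obtain ⟨I, hI⟩ := eventually_atTop.1 (h (ε / 4) (by positivity))
  have b (s : Finset ℕ) : ‖∑ n ∈ s, u n‖ ≤ s.card :=
    (norm_sum_le_of_le _ fun n _ => hu n).trans (by simp)
  have key (i) (hi : I ≤ i) : ‖∑ n ∈ range (M i), u n‖ ≤ M I + ε / 4 * M i := by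
    induction i, hi using Nat.le_induction with
    | base => exact (b _).trans (by simp; positivity)
    | succ i hi ih =>
      rw [← sum_range_add_sum_Ico _ (hM.monotone i.le_succ)]
      linarith [norm_add_le (∑ n ∈ range (M i), u n) (∑ n ∈ Ico (M i) (M (i + 1)), u n), (hI i hi).1]
  filter_upwards [eventually_gt_atTop (M I), tendsto_natCast_atTop_atTop.eventually_gt_atTop
    (M I / (ε / 4))] with N h1 h2
  classical
  have ex : ∃ i, N < M (i + 1) := ⟨N, N.lt_succ_self.trans_le hM.le_apply⟩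
  have i1 := Nat.find_spec ex
  have i0 : I ≤ Nat.find ex := by
    by_contra! k
    exact (i1.trans_le (hM.monotone k)).not_gt h1
  have i2 : M (Nat.find ex) ≤ N := by
    rcases i0.eq_or_lt with e | e
    · exact e ▸ h1.le
    · have := Nat.find_min ex (m := Nat.find ex - 1) (by omega)
      rw [Nat.sub_add_cancel (by omega)] at this
      omega
  generalize Nat.find ex = i at *
  have N0 : (0 : ℝ) < N := by exact_mod_cast h1.pos
  rw [norm_div, Complex.norm_natCast, div_lt_iff₀ N0, ← sum_range_add_sum_Ico _ i2]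
  rw [div_lt_iff₀ (by positivity)] at h2
  have b2 := b (Ico (M i) N)
  rw [Nat.card_Ico, Nat.cast_sub i2] at b2
  have i1' : (N : ℝ) < M (i + 1) := by exact_mod_cast i1
  have i2' : (M i : ℝ) ≤ N := by exact_mod_cast i2
  nlinarith [norm_add_le (∑ n ∈ range (M i), u n) (∑ n ∈ Ico (M i) N, u n), (hI i i0).2, key i i0]

end Pool.Agent.H.MP_f44585_an
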