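import Pool.Agent.H.MP_f44585_an.B

open Finset Filter Topology

namespace Pool.Agent.H.MP_f44585_an

variable {r : ℕ}

def dig {q : ℕ} (I : Finset ℕ) (d : ℕ → Bool) (ω : I → Fin (q + 2)) (n : ℕ) : Bool :=
  if h : n ∈ I then decide (ω ⟨n, h⟩ = 0) else d n

lemma far (hr : 2 ≤ r) {q : ℕ} {I : Finset ℕ} {d : ℕ → Bool} {φ : ℝ → ℝ} {α η : ℝ} {n D : ℕ}
    (hD : D ≤ n) (hI : Ico (n - D) n ⊆ I)
    (hφ : ∀ ω ω' : I → Fin (q + 2), |val r (dig I d ω) - val r (dig I d ω')| ≤ 1 / r ^ (n - D) →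
      |φ (val r (dig I d ω)) - φ (val r (dig I d ω')) -
        r ^ n * α * (val r (dig I d ω) - val r (dig I d ω'))| ≤ η)
    (hP : ∏ j ∈ range D, ‖((q + 2 : ℝ) - 1 : ℝ) + ee (r ^ j * α)‖ / (q + 2) ≤ η) :
    ‖∑ ω : I → Fin (q + 2), ee (φ (val r (dig I d ω)))‖ ≤
      8 * η * Fintype.card (I → Fin (q + 2)) := by
  let mix : (I → Fin (q + 2)) → (I → Fin (q + 2)) → I → Fin (q + 2) := fun ω ω' s =>
    if s.1 ∈ Ico (n - D) n then ω' s else ω s
  have inv : Function.Involutive fun p : (I → Fin (q + 2)) × (I → Fin (q + 2)) =>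
      (mix p.1 p.2, mix p.2 p.1) := fun p => by
    ext s <;> simp only [mix] <;> split_ifs <;> rfl
  have swap := Equiv.sum_comp (inv.toPerm _)
    fun p : (I → Fin (q + 2)) × (I → Fin (q + 2)) => ee (φ (val r (dig I d p.1)))
  rw [Fintype.sum_prod_type, Fintype.sum_prod_type_right] at swap
  simp only [Function.Involutive.coe_toPerm, sum_const, card_univ, nsmul_eq_mul] at swap
  have c0 : (0 : ℝ) < Fintype.card (I → Fin (q + 2)) := by exact_mod_cast Fintype.card_pos
  refine le_of_mul_le_mul_left ?_ c0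
  rw [← Complex.norm_natCast, ← norm_mul, ← swap, Complex.norm_natCast]
  refine (norm_sum_le_of_le _ (n := fun _ => 8 * η * Fintype.card (I → Fin (q + 2)))
    fun ω _ => ?_).trans (by simp)
  let θ : (s : I) → Fin (q + 2) → ℝ := fun s x =>
    if s.1 ∈ Ico (n - D) n ∧ x = 0 then r ^ (n - 1 - s.1) * α else 0
  have out (ω') (s) (hs : s ∉ Ico (n - D) n) : dig I d (mix ω ω') s = dig I d (mix ω 1) s := by
    simp only [dig, mix, hs, if_false]
  have lin (ω') : r ^ n * α * (val r (dig I d (mix ω ω')) - val r (dig I d (mix ω 1))) =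
      ∑ s, θ s (ω' s) := by
    rw [val_diff hr (W := I) fun s hs => out ω' s fun k => hs (hI k), mul_sum, ← sum_coe_sort]
    refine sum_congr rfl fun s _ => ?_
    by_cases hs : s.1 ∈ Ico (n - D) n
    · have : (r : ℝ) ^ n = r ^ (n - 1 - s.1) * r ^ (s.1 + 1) := by
        rw [← pow_add]; congr 1; have := mem_Ico.1 hs; omega
      by_cases h0 : ω' s = 0
      · simp only [dig, mix, θ, hs, s.2, dif_pos, if_true, h0]
        rw [this]; simp; field_simp
      · simp only [dig, mix, θ, hs, s.2, dif_pos, if_true, h0]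
        simp
    · simp only [out ω' _ hs, θ, hs]; simp
  have main : ‖∑ ω' : I → Fin (q + 2), ee (φ (val r (dig I d (mix ω 1)))) * ∏ s, ee (θ s (ω' s))‖ ≤
      η * Fintype.card (I → Fin (q + 2)) := by
    rw [← mul_sum, norm_mul, ee_norm, one_mul, ← Fintype.piFinset_univ,
      ← prod_univ_sum (fun _ => univ) fun s x => ee (θ s x), norm_prod]
    have e (s : I) : ‖∑ x, ee (θ s x)‖ = (if s.1 ∈ Ico (n - D) n then
        ‖((q + 2 : ℝ) - 1 : ℝ) + ee (r ^ (n - 1 - s.1) * α)‖ / (q + 2) else 1) * (q + 2) := by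
      split_ifs with hs
      · rw [div_mul_cancel₀ _ (by positivity), Fin.sum_univ_succ]
        simp only [θ, hs, Fin.succ_ne_zero]
        simp [ee_zero]
        congr 1; ring
      · simp only [θ, hs, false_and, if_false, ee_zero]
        simpa using Complex.norm_natCast (q + 2)
    rw [prod_congr rfl fun s _ => e s, prod_mul_distrib, prod_coe_sort I fun s =>
      if s ∈ Ico (n - D) n then ‖((q + 2 : ℝ) - 1 : ℝ) + ee (r ^ (n - 1 - s) * α)‖ / (q + 2) else 1,
      prod_ite_mem, inter_eq_right.2 hI]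
    rcases n.eq_zero_or_pos with rfl | hn
    · obtain rfl : D = 0 := by omega
      simpa using mul_le_mul_of_nonneg_right hP c0.le
    rw [prod_Ico_reflect (fun j => ‖((q + 2 : ℝ) - 1 : ℝ) + ee (r ^ j * α)‖ / (q + 2)) _ (by omega),
      show n - 1 + 1 - n = 0 by omega, show n - 1 + 1 - (n - D) = D by omega, ← range_eq_Ico]
    simpa using mul_le_mul_of_nonneg_right hP c0.le
  have err := norm_sum_le_of_le univ (n := fun _ => 7 * η) (f := fun ω' =>
    ee (φ (val r (dig I d (mix ω ω')))) - ee (φ (val r (dig I d (mix ω 1)))) * ∏ s, ee (θ s (ω' s)))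
    fun ω' _ => by
      rw [← ee_sum, ← ee_add, ← lin]
      refine (ee_sub _ _).trans (mul_le_mul_of_nonneg_left ?_ (by norm_num))
      rw [← sub_sub]
      exact hφ _ _ (val_close hr fun s hs => out ω' s fun k => by have := mem_Ico.1 k; omega)
  rw [sum_sub_distrib, sum_const, card_univ, nsmul_eq_mul] at err
  linarith [norm_le_norm_add_norm_sub' (∑ ω', ee (φ (val r (dig I d (mix ω ω')))))
    (∑ ω' : I → Fin (q + 2), ee (φ (val r (dig I d (mix ω 1)))) * ∏ s, ee (θ s (ω' s)))]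

lemma count {q : ℕ} (I : Finset ℕ) (d : ℕ → Bool) :
    (q + 2 : ℝ) * ∑ ω : I → Fin (q + 2), ∑ n ∈ I, ((dig I d ω n).toNat : ℝ) =
      Fintype.card (I → Fin (q + 2)) * I.card := by
  rw [sum_comm, mul_sum, ← sum_coe_sort, mul_comm, ← nsmul_eq_mul, ← Fintype.card_coe, ← card_univ,
    ← sum_const]
  refine sum_congr rfl fun s _ => ?_
  have := prod_univ_sum (fun _ : I => (univ : Finset (Fin (q + 2))))
    fun t x => if t = s then (if x = 0 then (q + 2 : ℝ) else 0) else 1
  rw [prod_congr rfl (g := fun _ => (q + 2 : ℝ)) fun t _ => by split_ifs <;> simp] at this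
  simp only [prod_ite_eq', mem_univ, if_true, Fintype.piFinset_univ] at this
  rw [mul_sum, sum_congr rfl (g := fun ω => if ω s = 0 then (q + 2 : ℝ) else 0) fun ω _ => by
    by_cases h : ω s = 0 <;> simp [dig, h], ← this]
  simp

def Good (r : ℕ) (F : ℝ → ℝ) (j M : ℕ) (d : ℕ → Bool) : Prop :=
  ∃ (L : ℕ) (d' : ℕ → Bool), j ≤ L ∧ j * L ≤ M ∧ (∀ n < M, d' n = d n) ∧
    (j : ℝ) * ∑ n ∈ Ico M (M + L), ((d' n).toNat : ℝ) ≤ L ∧
    ∀ e, (∀ n < M + L, e n = d' n) → ∀ h : ℕ, 1 ≤ h → h ≤ j →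
      j * ‖∑ n ∈ Ico M (M + L), ee (h * (r ^ n * F (val r e)))‖ ≤ L

lemma stage (hr : 2 ≤ r) {F : ℝ → ℝ} {β y : ℝ} (hF : HasStrictDerivAt F β y) (hβ : Irrational β)
    (j : ℕ) : ∀ᶠ M in atTop, ∀ d, (∀ e, (∀ n < M, e n = d n) → |val r e - y| ≤ 1 / r ^ M) →
      Good r F (j + 1) M d := by
  have r2 : (2 : ℝ) ≤ r := by exact_mod_cast hr
  have r1 : (1 : ℝ) < r := by linarith
  set J : ℝ := j + 1 with hJ
  have J1 : 1 ≤ J := by simp [hJ]
  set η : ℝ := 1 / (256 * J ^ 3) with hη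
  have η0 : 0 < η := by positivity
  have lim : Tendsto (fun M : ℕ => 1 / (r : ℝ) ^ M) atTop (𝓝 0) :=
    tendsto_const_nhds.div_atTop (tendsto_pow_atTop_atTop_of_one_lt r1)
  obtain ⟨D, hD⟩ : ∃ D, ∀ h ∈ Icc 1 (j + 1), ∏ i ∈ range D,
      ‖(((2 * j : ℕ) + 2 : ℝ) - 1 : ℝ) + ee (r ^ i * (h * β))‖ / ((2 * j : ℕ) + 2) ≤ η := by
    refine ((eventually_all_finset _).2 fun h hh => (decay hr (by simp) fun i k => ?_).eventually
      (ge_mem_nhds η0)).exists
    obtain ⟨n, hn⟩ := ee_one k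
    refine ((hβ.natCast_mul (m := r ^ i * h) ?_).ne_int n) (by rw [← hn]; push_cast; ring)
    have := (mem_Icc.1 hh).1
    positivity
  set K := |β| + 1 with hK
  have K1 : 1 ≤ K := by simp [hK]
  obtain ⟨D', hD'⟩ := (lim.eventually (ge_mem_nhds
    (show 0 < η / 2 / (J * K) by positivity))).exists
  have κ0 : 0 < min 1 (η / 2 / (J * r ^ D)) := by positivity
  obtain ⟨δ, δ0, hδ⟩ := Metric.eventually_nhds_iff.1
    (hF.isLittleO.def κ0)
  obtain ⟨L, hL⟩ := exists_nat_ge (max (J + 14 * J ^ 2 * K) (64 * J ^ 3 * (D + D' : ℕ)))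
  rw [max_le_iff] at hL
  have L0 : (0 : ℝ) < L := lt_of_lt_of_le (by positivity) hL.1
  filter_upwards [lim.eventually (gt_mem_nhds δ0), eventually_ge_atTop ((j + 1) * L)]
    with M hM hM2 d hd
  have str {e e' : ℕ → Bool} (h : ∀ n < M, e n = d n) (h' : ∀ n < M, e' n = d n) :
      |F (val r e) - F (val r e') - (val r e - val r e') * β| ≤
        min 1 (η / 2 / (J * r ^ D)) * |val r e - val r e'| :=
    hδ (y := (val r e, val r e')) (max_lt ((hd e h).trans_lt hM) ((hd e' h').trans_lt hM))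
  have lip {e e' : ℕ → Bool} (h : ∀ n < M, e n = d n) (h' : ∀ n < M, e' n = d n) :
      |F (val r e) - F (val r e')| ≤ K * |val r e - val r e'| := by
    have := (abs_sub_abs_le_abs_sub _ _).trans ((str h h').trans
      (mul_le_mul_of_nonneg_right (min_le_left _ _) (abs_nonneg _)))
    rw [abs_mul] at this
    linarith
  have low (ω : Ico M (M + L) → Fin (2 * j + 2)) (n) (hn : n < M) : dig _ d ω n = d n :=
    dif_neg (by simp; omega)
  have mom (h) (hh : h ∈ Icc 1 (j + 1)) := moment (Ico M (M + L))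
    (fun n (ω : Ico M (M + L) → Fin (2 * j + 2)) => ee (h * (r ^ n * F (val r (dig _ d ω)))))
    (fun _ _ => ee_norm _) (T := D + D') (η := 8 * η) (by positivity) fun n hn m hm hmn => by
      have hJ : (h : ℝ) ≤ J := by rw [hJ]; exact_mod_cast (mem_Icc.1 hh).2
      rw [mem_Ico] at hn hm
      simp only [ee_conj, ← ee_add]
      refine far hr (φ := fun x => h * (r ^ n * F x) + -(h * (r ^ m * F x))) (n := n) (D := D)
        (by omega) (Ico_subset_Ico (by omega) hn.2.le) (fun ω ω' hv => ?_) (hD h hh)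
      have h1 := (str (low ω) (low ω')).trans
        (mul_le_mul (min_le_right _ _) hv (abs_nonneg _) (by positivity))
      have h2 := (lip (low ω) (low ω')).trans (mul_le_mul_of_nonneg_left hv (by positivity))
      generalize val r (dig _ d ω) = a at *
      generalize val r (dig _ d ω') = b at *
      rw [show h * (r ^ n * F a) + -(h * (r ^ m * F a)) - (h * (r ^ n * F b) + -(h * (r ^ m * F b))) -
        r ^ n * (h * β) * (a - b) = h * (r ^ n * (F a - F b - (a - b) * β)) - h * (r ^ m * (F a - F b))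
        by ring]
      refine (abs_sub _ _).trans ?_
      simp only [abs_mul, abs_pow, Nat.abs_cast]
      have e1 : J * (r ^ n * (η / 2 / (J * r ^ D) * (1 / r ^ (n - D)))) = η / 2 := by
        rw [show (r : ℝ) ^ n = r ^ D * r ^ (n - D) by rw [← pow_add]; congr 1; omega]
        field_simp
      have e2 : J * (r ^ m * (K * (1 / r ^ (n - D)))) ≤ η / 2 := by
        rw [le_div_iff₀ (by positivity)] at hD'
        refine le_trans ?_ hD'
        have : (r : ℝ) ^ m * r ^ D' ≤ r ^ (n - D) := by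
          rw [← pow_add]; exact pow_le_pow_right₀ r1.le (by omega)
        rw [show J * (r ^ m * (K * (1 / r ^ (n - D)))) = r ^ m / r ^ (n - D) * (J * K) by ring]
        refine mul_le_mul_of_nonneg_right ?_ (by positivity)
        rwa [div_le_div_iff₀ (by positivity) (by positivity), one_mul]
      have g1 : h * (r ^ n * |F a - F b - (a - b) * β|) ≤ η / 2 := by rw [← e1]; gcongr
      have g2 : h * (r ^ m * |F a - F b|) ≤ η / 2 := le_trans (by gcongr) e2
      linarith
  have cnt := count (q := 2 * j) (Ico M (M + L)) d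
  simp only [Nat.card_Ico, Nat.add_sub_cancel_left] at mom cnt
  have c0 : (0 : ℝ) < Fintype.card (Ico M (M + L) → Fin (2 * j + 2)) := by
    exact_mod_cast Fintype.card_pos
  obtain ⟨ω, -, hω⟩ := exists_le_of_sum_le (s := univ) univ_nonempty (g := fun _ => (1 : ℝ))
    (f := fun ω : Ico M (M + L) → Fin (2 * j + 2) => 4 * J ^ 2 / L ^ 2 * ∑ h ∈ Icc 1 (j + 1),
      ‖∑ n ∈ Ico M (M + L), ee (h * (r ^ n * F (val r (dig _ d ω))))‖ ^ 2 +
      J / L * ∑ n ∈ Ico M (M + L), ((dig _ d ω n).toNat : ℝ)) (by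
      rw [sum_add_distrib, ← mul_sum, ← mul_sum, sum_comm, sum_const, card_univ, nsmul_eq_mul]
      have a1 := sum_le_sum mom
      rw [sum_const, Nat.card_Icc, Nat.add_sub_cancel, nsmul_eq_mul] at a1
      have a2 := mul_le_mul_of_nonneg_left a1 (show 0 ≤ 4 * J ^ 2 / L ^ 2 by positivity)
      rw [show ((2 * j : ℕ) + 2 : ℝ) = 2 * J by rw [hJ]; push_cast; ring] at cnt
      rw [show ((j + 1 : ℕ) : ℝ) = J by simp [hJ]] at a2
      generalize (Fintype.card (Ico M (M + L) → Fin (2 * j + 2)) : ℝ) = c at *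
      generalize ((D + D' : ℕ) : ℝ) = T at *
      have e1 : 4 * J ^ 2 / L ^ 2 * (J * (c * (L * (2 * T) + L ^ 2 * (8 * η)))) =
          c * (64 * J ^ 3 * T / L / 8 + 1 / 8) := by rw [hη]; field_simp; ring
      have e2 := (div_le_one L0).2 hL.2
      have e3 := (eq_div_iff (by positivity)).2 ((mul_comm _ _).trans cnt)
      rw [e3, show J / L * (c * L / (2 * J)) = c / 2 by field_simp]
      nlinarith)
  have p1 : 0 ≤ J / L * ∑ n ∈ Ico M (M + L), ((dig _ d ω n).toNat : ℝ) := by positivity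
  have p2 : 0 ≤ 4 * J ^ 2 / L ^ 2 * ∑ h ∈ Icc 1 (j + 1),
      ‖∑ n ∈ Ico M (M + L), ee (h * (r ^ n * F (val r (dig _ d ω))))‖ ^ 2 := by positivity
  have eJ : ((j + 1 : ℕ) : ℝ) = J := by simp [hJ]
  refine ⟨L, dig _ d ω, ?_, hM2, low ω, ?_, fun e he h h1 h2 => ?_⟩
  · exact_mod_cast eJ.le.trans (le_trans (le_add_of_nonneg_right (by positivity)) hL.1)
  · rw [eJ, ← div_le_one L0, ← div_mul_eq_mul_div]
    linarith
  have s1 := mul_le_mul_of_nonneg_left (single_le_sum (f := fun h : ℕ =>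
    ‖∑ n ∈ Ico M (M + L), ee (h * (r ^ n * F (val r (dig _ d ω))))‖ ^ 2) (fun _ _ => by positivity)
    (mem_Icc.2 ⟨h1, h2⟩)) (show 0 ≤ 4 * J ^ 2 / L ^ 2 by positivity)
  have s2 : 2 * J * ‖∑ n ∈ Ico M (M + L), ee (h * (r ^ n * F (val r (dig _ d ω))))‖ ≤ L := by
    refine abs_le_of_sq_le_sq' ?_ L0.le |>.2
    rw [← div_le_one (by positivity), mul_pow, mul_pow, ← div_mul_eq_mul_div]
    linarith
  have hJ : (h : ℝ) ≤ J := by rw [← eJ]; exact_mod_cast h2
  have v := (lip (fun n hn => (he n (by omega)).trans (low ω n hn)) (low ω)).trans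
    (mul_le_mul_of_nonneg_left (val_close hr he) (by positivity))
  have s3 := norm_sum_le_of_le (Ico M (M + L)) (n := fun n => 7 * J * K / r ^ (M + L) * r ^ n)
    (f := fun n => ee (h * (r ^ n * F (val r e))) - ee (h * (r ^ n * F (val r (dig _ d ω)))))
    fun n _ => (ee_sub _ _).trans (by
      rw [← mul_sub, ← mul_sub, abs_mul, abs_mul, abs_pow, Nat.abs_cast, Nat.abs_cast,
        show 7 * J * K / r ^ (M + L) * r ^ n = 7 * (J * (r ^ n * (K * (1 / r ^ (M + L))))) by ring]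
      gcongr)
  have s4 : ∑ n ∈ Ico M (M + L), (r : ℝ) ^ n ≤ r ^ (M + L) := by
    exact_mod_cast (Nat.geomSum_lt hr fun k hk => (mem_Ico.1 hk).2).le
  rw [sum_sub_distrib, ← mul_sum] at s3
  have s5 := s3.trans ((mul_le_mul_of_nonneg_left s4 (by positivity)).trans_eq
    (div_mul_cancel₀ _ (by positivity)))
  have s6 := (norm_le_norm_add_norm_sub' _ _).trans (add_le_add le_rfl s5)
  rw [eJ]
  nlinarith [mul_le_mul_of_nonneg_left s6 (show 0 ≤ J by positivity)]

end Pool.Agent.H.MP_f44585_an
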