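import Pool.Agent.H.MP_f44585_an.C

open Finset Filter Topology

namespace Pool.Agent.H.MP_f44585_an

variable {r : ℕ}

lemma average2 {u : ℕ → ℂ} (hu : ∀ n, ‖u n‖ ≤ 1) {M L : ℕ → ℕ} (hM : ∀ i, M (i + 1) = M i + L i + 2)
    (h : ∀ᶠ j : ℕ in atTop, ∀ᶠ i in atTop, j ≤ L i ∧ j * L i ≤ M i ∧
      j * ‖∑ n ∈ Ico (M i) (M i + L i), u n‖ ≤ L i) :
    Tendsto (fun N : ℕ => (∑ n ∈ range N, u n) / N) atTop (𝓝 0) := by
  refine average hu (strictMono_nat_of_lt_succ (f := M) fun i => by rw [hM]; omega) fun ε hε => ?_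
  obtain ⟨j, h1, h2, h3⟩ := (h.and ((eventually_ge_atTop 1).and
    (tendsto_natCast_atTop_atTop.eventually_ge_atTop (3 / ε)))).exists
  rw [div_le_iff₀ hε] at h3
  refine h1.mono fun i ⟨k1, k2, k3⟩ => ?_
  have j1 : (1 : ℝ) ≤ j := by exact_mod_cast h2
  have l1 : (j : ℝ) ≤ L i := by exact_mod_cast k1
  have l2 : (j : ℝ) * L i ≤ M i := by exact_mod_cast k2
  rw [hM, sum_Ico_succ_top (by omega), sum_Ico_succ_top (by omega)]
  push_cast
  have b := (norm_add₃_le (a := ∑ n ∈ Ico (M i) (M i + L i), u n)).trans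
    (add_le_add (add_le_add le_rfl (hu (M i + L i))) (hu (M i + L i + 1)))
  refine ⟨b.trans (le_of_mul_le_mul_left ?_ (show (0 : ℝ) < j by linarith)), ?_⟩ <;> nlinarith

theorem main (hr : 2 ≤ r) {F F' : ℝ → ℝ} (hF : ∀ y, 0 ≤ y → HasStrictDerivAt F (F' y) y)
    (hc : {y | 0 ≤ y ∧ ¬ Irrational (F' y)}.Countable) : ∃ d : ℕ → Bool,
      Tendsto (fun N : ℕ => (∑ n ∈ range N, ((d n).toNat : ℝ)) / N) atTop (𝓝 0) ∧ ∀ h : ℕ, 1 ≤ h →
      Tendsto (fun N : ℕ => (∑ n ∈ range N, ee (h * (r ^ n * F (val r d)))) / N) atTop (𝓝 0) := by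
  classical
  obtain ⟨b, hb⟩ := Set.countable_iff_exists_subset_range.1 hc
  have step (i : ℕ) (p : ℕ × (ℕ → Bool)) : ∃ (L : ℕ) (d' : ℕ → Bool), (∀ n < p.1, d' n = p.2 n) ∧
      ∀ e, (∀ n < p.1 + L + 2, e n = d' n) → val r e ≠ b i ∧ ∀ j, Good r F j p.1 p.2 →
        j ≤ L ∧ j * L ≤ p.1 ∧ (j : ℝ) * ∑ n ∈ Ico p.1 (p.1 + L), ((e n).toNat : ℝ) ≤ L ∧ ∀ h : ℕ,
        1 ≤ h → h ≤ j → j * ‖∑ n ∈ Ico p.1 (p.1 + L), ee (h * (r ^ n * F (val r e)))‖ ≤ L := by
    obtain ⟨L, d1, h1, h2, h3, h4, h5⟩ := Nat.findGreatest_spec (P := fun j => Good r F j p.1 p.2)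
      p.1.zero_le ⟨0, p.2, by simp⟩
    obtain ⟨d2, k1, -, k2⟩ := avoid hr d1 (p.1 + L) (b i)
    refine ⟨L, d2, fun n hn => (k1 n (by omega)).trans (h3 n hn), fun e he => ⟨k2 e he, fun j hj => ?_⟩⟩
    have hJ := Nat.le_findGreatest (P := fun j => Good r F j p.1 p.2) (n := p.1)
      (by obtain ⟨L, -, a, b, -⟩ := hj; nlinarith) hj
    have hJ' : (j : ℝ) ≤ Nat.findGreatest (fun j => Good r F j p.1 p.2) p.1 := by exact_mod_cast hJ
    have ag (n) (hn : n < p.1 + L) : e n = d1 n := (he n (by omega)).trans (k1 n hn)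
    refine ⟨hJ.trans h1, (Nat.mul_le_mul_right _ hJ).trans h2, le_trans ?_ h4, fun h a b =>
      le_trans (by gcongr) (h5 e ag h a (b.trans hJ))⟩
    rw [sum_congr rfl fun n hn => by rw [ag n (mem_Ico.1 hn).2]]
    gcongr
  choose L D h1 h2 using step
  let s : ℕ → ℕ × (ℕ → Bool) := fun i => i.rec (0, fun _ => false) fun i p => (p.1 + L i p + 2, D i p)
  have hM (i) : (s (i + 1)).1 = (s i).1 + L i (s i) + 2 := rfl
  have mono : StrictMono fun i => (s i).1 := strictMono_nat_of_lt_succ fun i => by rw [hM]; omega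
  have ag (i k) (hk : i ≤ k) (n) (hn : n < (s i).1) : (s k).2 n = (s i).2 n := by
    induction k, hk using Nat.le_induction with
    | base => rfl
    | succ k hk ih => exact (h1 k (s k) n (hn.trans_le (mono.monotone hk))).trans ih
  let e : ℕ → Bool := fun n => (s (n + 1)).2 n
  have he (i n) (hn : n < (s i).1) : e n = (s i).2 n :=
    (ag _ _ (le_max_left (n + 1) i) n (n.lt_succ_self.trans_le mono.le_apply)).symm.trans
      (ag _ _ (le_max_right _ _) n hn)
  have y0 : 0 ≤ val r e := tsum_nonneg fun n => by positivity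
  have irr : Irrational (F' (val r e)) := by
    by_contra k
    obtain ⟨i, hi⟩ := hb ⟨y0, k⟩
    exact (h2 i (s i) e (he (i + 1))).1 hi.symm
  have good : ∀ᶠ j in atTop, ∀ᶠ i in atTop, Good r F j (s i).1 (s i).2 := by
    filter_upwards [eventually_ge_atTop 1] with j hj
    obtain ⟨j, rfl⟩ := Nat.exists_eq_add_of_le' hj
    exact (mono.tendsto_atTop.eventually (stage hr (hF _ y0) irr j)).mono fun i hi =>
      hi _ fun e' h => val_close hr fun n hn => (h n hn).trans (he i n hn).symm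
  refine ⟨e, ?_, fun h hh => average2 (M := fun i => (s i).1) (L := fun i => L i (s i))
    (fun n => (ee_norm _).le) hM ?_⟩
  · have := average2 (u := fun n => ((e n).toNat : ℝ)) (M := fun i => (s i).1)
      (L := fun i => L i (s i)) (fun n => by simpa using Bool.toNat_le _) hM
      (good.mono fun j hj => hj.mono fun i hi => by
        obtain ⟨a, b, c, -⟩ := (h2 i (s i) e (he (i + 1))).2 j hi
        refine ⟨a, b, ?_⟩
        rwa [← Complex.ofReal_sum, Complex.norm_real, Real.norm_of_nonneg (by positivity)])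
    simpa [Function.comp_def] using (Complex.continuous_re.tendsto _).comp this
  filter_upwards [good, eventually_ge_atTop h] with j hj k
  exact hj.mono fun i hi => by
    obtain ⟨a, b, -, c⟩ := (h2 i (s i) e (he (i + 1))).2 j hi
    exact ⟨a, b, c h hh k⟩

lemma det (hr : 2 ≤ r) (c : ℤ) {d : ℕ → Bool}
    (hd : Tendsto (fun N : ℕ => (∑ n ∈ range N, ((d n).toNat : ℝ)) / N) atTop (𝓝 0)) :
    Tendsto (fun N : ℕ => ∑ w : Fin 1 → Fin r, Real.negMulLog ((((range N).filter (fun i => ∀ j : Fin 1,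
      ⌊(c + val r d) * (r : ℝ) ^ (i + (j : ℕ) + 1)⌋ % (r : ℤ) = ((w j : ℕ) : ℤ))).card : ℝ) / (N : ℝ)))
      atTop (𝓝 0) := by
  have Z : Tendsto (fun N : ℕ => (((range N).filter fun i =>
      ¬ ⌊(c + val r d) * (r : ℝ) ^ (i + 1)⌋ % (r : ℤ) = 0).card : ℝ) / N) atTop (𝓝 0) := by
    have := (hd.const_mul 2).add tendsto_one_div_atTop_nhds_zero_nat
    rw [mul_zero, add_zero] at this
    refine squeeze_zero (fun N => by positivity) (fun N => ?_) this
    rw [← mul_div_assoc, ← add_div]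
    gcongr
    rw [card_filter, Nat.cast_sum]
    refine (sum_le_sum (g := fun i => ((d i).toNat : ℝ) + (d (i + 1)).toNat) fun i _ => ?_).trans ?_
    · have := digit_zero hr c (d := d) (n := i)
      cases h1 : d i <;> cases h2 : d (i + 1) <;> split_ifs <;> simp_all
    · have := (sum_range_succ (fun i => ((d i).toNat : ℝ)) N).symm.trans (sum_range_succ' _ N)
      have h1 : ((d N).toNat : ℝ) ≤ 1 := by exact_mod_cast Bool.toNat_le _
      have h2 : (0 : ℝ) ≤ (d 0).toNat := by positivity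
      rw [sum_add_distrib]
      linarith
  rw [← sum_const_zero (s := (univ : Finset (Fin 1 → Fin r)))]
  refine tendsto_finsetSum _ fun w _ => ?_
  simp only [Fin.forall_fin_one, Fin.val_zero, add_zero]
  by_cases hw : ((w 0 : ℕ) : ℤ) = 0
  · rw [hw, ← Real.negMulLog_one]
    refine (Real.continuous_negMulLog.tendsto _).comp ?_
    have := Z.const_sub 1
    rw [sub_zero] at this
    refine this.congr' ((eventually_ne_atTop 0).mono fun N hN => ?_)
    have := congrArg (Nat.cast : ℕ → ℝ) (card_filter_add_card_filter_not (s := range N)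
      fun i => ⌊(c + val r d) * (r : ℝ) ^ (i + 1)⌋ % (r : ℤ) = 0)
    rw [card_range, Nat.cast_add] at this
    field_simp
    linarith
  · rw [← Real.negMulLog_zero]
    refine (Real.continuous_negMulLog.tendsto _).comp (squeeze_zero (fun N => by positivity)
      (fun N => ?_) Z)
    gcongr with i _
    exact fun h k => hw (h.symm.trans k)

lemma ent (hr : 2 ≤ r) {z : ℝ}
    (h : ∀ k : ℕ, 1 ≤ k → Tendsto (fun N : ℕ => (∑ n ∈ range N, ee (k * (r ^ n * z))) / N)
      atTop (𝓝 0)) (k : ℕ) :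
    Tendsto (fun N : ℕ => ∑ w : Fin k → Fin r, Real.negMulLog ((((range N).filter (fun i => ∀ j : Fin k,
      ⌊z * (r : ℝ) ^ (i + (j : ℕ) + 1)⌋ % (r : ℤ) = ((w j : ℕ) : ℤ))).card : ℝ) / (N : ℝ)))
      atTop (𝓝 (k * Real.log r)) := by
  have := tendsto_finsetSum univ fun (w : Fin k → Fin r) _ =>
    (Real.continuous_negMulLog.tendsto _).comp (normal hr h k w)
  rwa [show ∑ _x : Fin k → Fin r, (1 / (r : ℝ) ^ k).negMulLog = k * Real.log r by
    simp [Real.negMulLog]; field_simp] at this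

end Pool.Agent.H.MP_f44585_an
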