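import Pool.Agent.H.MP_f44585_an.D

open Finset Filter Topology

namespace Pool.Agent.H.MP_f44585_an

variable {r : ℕ}

lemma sparse (hr : 2 ≤ r) (c : ℤ) {d : ℕ → Bool}
    (hd : Tendsto (fun N : ℕ => (∑ n ∈ range N, ((d n).toNat : ℝ)) / N) atTop (𝓝 0)) :
    Tendsto (fun N : ℕ => (((range N).filter fun i =>
      ⌊(c + val r d) * (r : ℝ) ^ (i + 1)⌋ % (r : ℤ) ≠ 0).card : ℝ) / N) atTop (𝓝 0) := by
  have := (hd.const_mul 2).add tendsto_one_div_atTop_nhds_zero_nat
  rw [mul_zero, add_zero] at this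
  refine squeeze_zero (fun N => by positivity) (fun N => ?_) this
  rw [← mul_div_assoc, ← add_div]
  gcongr
  rw [card_filter, Nat.cast_sum]
  refine (sum_le_sum (g := fun i => ((d i).toNat : ℝ) + (d (i + 1)).toNat) fun i _ => ?_).trans ?_
  · have := digit_zero hr c (d := d) (n := i)
    cases h1 : d i <;> cases h2 : d (i + 1) <;> split_ifs <;> simp_all
  · have := (sum_range_succ (fun i => ((d i).toNat : ℝ)) N).symm.trans (sum_range_succ' _ N)
    have h1 : ((d N).toNat : ℝ) ≤ 1 := by exact_mod_cast Bool.toNat_le _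
    have h2 : (0 : ℝ) ≤ (d 0).toNat := by positivity
    rw [sum_add_distrib]
    linarith

end Pool.Agent.H.MP_f44585_an
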